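import Pool.Agent.Lib.MP_7a2af1_al.WR.V2
import Pool.Agent.Lib.MP_7a2af1_al.ML.Z1d

/-!
# Direct products of an arbitrary finite group with a metabelian group

For every finite group `G` there is `m` such that for every multiple `μ` of `m` the direct product of
`G` with the wreath product `C_μ ≀ C_n` of two cyclic groups, `n = μ |G|`, has a minimal length
logarithmic signature.
-/

set_option autoImplicit false

namespace Pool.Agent.Results.MP_7a2af1_al.DirectMLS

universe u

/-- The group `Γ` has a minimal length logarithmic signature: there is a list of blocks (lists of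
elements) such that the total length is the sum of `p * m` over the prime powers `p ^ m` exactly
dividing the order, and every element is in exactly one way the product of one entry of each block,
in the order of the blocks. -/
def HasMLS (Γ : Type u) [Group Γ] : Prop :=
  ∃ blocks : List (List Γ),
    (blocks.map List.length).sum = (Nat.card Γ).factorization.sum (fun p k => p * k) ∧
    ∀ g : Γ, ∃! c : (i : Fin blocks.length) → Fin (blocks.get i).length,
      (List.ofFn (fun i => (blocks.get i).get (c i))).prod = g

/-- The wreath product `C_μ ≀ C_n` of two cyclic groups: the semidirect product of the group of all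
functions from `ℤ/n` to the cyclic group of order `μ` with the group of the translations of `ℤ/n`. -/
abbrev CyclicWreath (μ n : ℕ) : Type :=
  (ZMod n → Multiplicative (ZMod μ)) ⋊[mulAutArrow (G := Multiplicative (ZMod n)) (A := ZMod n)
    (M := Multiplicative (ZMod μ))] Multiplicative (ZMod n)

/-- For every finite group `G` there is `m ≥ 1` such that for every positive multiple `μ` of `m` the
direct product `G × (C_μ ≀ C_n)`, `n = μ |G|`, has a minimal length logarithmic signature. -/
theorem result (G : Type u) [Group G] [Finite G] :
    ∃ m : ℕ, 1 ≤ m ∧ ∀ μ : ℕ, 1 ≤ μ → m ∣ μ →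
      HasMLS (G × CyclicWreath μ (μ * Nat.card G)) := by
  obtain ⟨m, hm, h⟩ := Pool.Agent.Lib.MP_7a2af1_al.direct_hasM
    (Pool.Agent.Lib.MP_7a2af1_al.hasU_all G)
  refine ⟨m, hm, fun μ hμ hd => ?_⟩
  have h1 : 1 ≤ Nat.card G := Nat.card_pos
  have : NeZero μ := ⟨by omega⟩
  have : NeZero (μ * Nat.card G) := ⟨(Nat.mul_pos hμ h1).ne'⟩
  have : Finite (CyclicWreath μ (μ * Nat.card G)) :=
    Finite.of_equiv _ SemidirectProduct.equivProd.symm
  exact (Pool.Agent.Lib.MP_7a2af1_al.hasMLS_iff_hasM _).mpr (h μ hμ hd)

end Pool.Agent.Results.MP_7a2af1_al.DirectMLS
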