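import Pool.Agent.Lib.MP_7a2af1_al.ML.Z2

/-!
# Every finite group has a minimal length logarithmic signature, stably

For every finite group `G` there is `n₀` such that for all `n ≥ n₀` the groups `G × Sₙ` and `G × Aₙ`
have a minimal length logarithmic signature.
-/

set_option autoImplicit false

namespace Pool.Agent.Results.MP_7a2af1_al.StableMLS

universe u

/-- The group `Γ` has a minimal length logarithmic signature: there is a list of blocks (lists of
elements) such that the total length is the sum of `p * m` over the prime powers `p ^ m` exactly
dividing the order, and every element is in exactly one way the product of one entry of each block,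
in the order of the blocks. -/
def HasMLS (Γ : Type u) [Group Γ] : Prop :=
  ∃ blocks : List (List Γ),
    (blocks.map List.length).sum = (Nat.card Γ).factorization.sum (fun p k => p * k) ∧
    ∀ g : Γ, ∃! c : (i : Fin blocks.length) → Fin (blocks.get i).length,
      (List.ofFn (fun i => (blocks.get i).get (c i))).prod = g

/-- For every finite group `G` there is `n₀` such that for every `n ≥ n₀` and every subgroup `H` of
the symmetric group `Sₙ` which contains the alternating group (so `H` is `Sₙ` or `Aₙ`), the direct
product `G × H` has a minimal length logarithmic signature. -/
theorem result (G : Type u) [Group G] [Finite G] :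
    ∃ n₀ : ℕ, ∀ n : ℕ, n₀ ≤ n → ∀ H : Subgroup (Equiv.Perm (Fin n)),
      alternatingGroup (Fin n) ≤ H → HasMLS (G × H) := by
  obtain ⟨n₀, h⟩ := Pool.Agent.Lib.MP_7a2af1_al.stable_hasP G
  exact ⟨n₀, fun n hn H hH => (h n hn H hH).hasMLS⟩

end Pool.Agent.Results.MP_7a2af1_al.StableMLS
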