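import Pool.Agent.Lib.MP_7a2af1_al.WR.W7
import Pool.Agent.Lib.MP_7a2af1_al.ML.Z1d

/-!
# Wreath products of a large cyclic group with an arbitrary finite group

For every finite group `G` there is `m` such that for every multiple `μ` of `m` the regular wreath
product `C_μ ≀ G` has a minimal length logarithmic signature. So every finite group is a quotient,
with abelian kernel, of a finite group with a minimal length logarithmic signature.
-/

set_option autoImplicit false

namespace Pool.Agent.Results.MP_7a2af1_al.WreathMLS

universe u

/-- The group `Γ` has a minimal length logarithmic signature: there is a list of blocks (lists of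
elements) such that the total length is the sum of `p * m` over the prime powers `p ^ m` exactly
dividing the order, and every element is in exactly one way the product of one entry of each block,
in the order of the blocks. -/
def HasMLS (Γ : Type u) [Group Γ] : Prop :=
  ∃ blocks : List (List Γ),
    (blocks.map List.length).sum = (Nat.card Γ).factorization.sum (fun p k => p * k) ∧
    ∀ g : Γ, ∃! c : (i : Fin blocks.length) → Fin (blocks.get i).length,
      (List.ofFn (fun i => (blocks.get i).get (c i))).prod = g

/-- The permutational wreath product `C_μ ≀_X G`: the semidirect product of the group of all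
functions from the `G`-set `X` to the cyclic group of order `μ` with `G`. For `X = G` (left
multiplication) it is the regular wreath product `C_μ ≀ G`. -/
abbrev Wreath (μ : ℕ) (X G : Type u) [Group G] [MulAction G X] : Type u :=
  (X → Multiplicative (ZMod μ)) ⋊[mulAutArrow (G := G) (A := X) (M := Multiplicative (ZMod μ))] G

/-- For every finite group `G` there is `m ≥ 1` such that for every positive multiple `μ` of `m` the
regular wreath product `C_μ ≀ G` has a minimal length logarithmic signature; and so has
`C_μ ≀_X G` for every finite `G`-set `X` with a point whose stabiliser has a minimal length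
logarithmic signature. -/
theorem result (G : Type u) [Group G] [Finite G] :
    ∃ m : ℕ, 1 ≤ m ∧ ∀ μ : ℕ, 1 ≤ μ → m ∣ μ → HasMLS (Wreath μ G G) ∧
      ∀ (X : Type u) [Finite X] [MulAction G X] (x₀ : X),
        HasMLS (MulAction.stabilizer G x₀) → HasMLS (Wreath μ X G) := by
  obtain ⟨m, hm, h⟩ := Pool.Agent.Lib.MP_7a2af1_al.wreath_hasM.{u, u}
    (Pool.Agent.Lib.MP_7a2af1_al.hasU_all G)
  have key : ∀ (μ : ℕ), 1 ≤ μ → m ∣ μ → ∀ (X : Type u) [Finite X] [MulAction G X] (x₀ : X),
      HasMLS (MulAction.stabilizer G x₀) → HasMLS (Wreath μ X G) := by
    intro μ hμ hd X _ _ x₀ hx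
    have : NeZero μ := ⟨by omega⟩
    have : Finite (Wreath μ X G) := Finite.of_equiv _ SemidirectProduct.equivProd.symm
    exact (Pool.Agent.Lib.MP_7a2af1_al.hasMLS_iff_hasM _).mpr (h X x₀
      ((Pool.Agent.Lib.MP_7a2af1_al.hasMLS_iff_hasM _).mp hx) μ hμ hd)
  refine ⟨m, hm, fun μ hμ hd => ⟨key μ hμ hd G 1 ?_, key μ hμ hd⟩⟩
  have : Subsingleton (MulAction.stabilizer G (1 : G)) := by
    refine ⟨fun a b => Subtype.ext ?_⟩
    have ha := a.2
    have hb := b.2
    rw [MulAction.mem_stabilizer_iff, smul_eq_mul, mul_one] at ha hb
    rw [ha, hb]
  refine ⟨[], by simp, fun g => ⟨fun i => i.elim0, Subsingleton.elim _ _, ?_⟩⟩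
  intro c _
  funext i
  exact i.elim0

end Pool.Agent.Results.MP_7a2af1_al.WreathMLS
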